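import Pool.Agent.Helper9.Hopf.Local
import Pool.Agent.Helper9.Hopf.Skew
import Pool.Agent.Helper45.HopfFD

set_option autoImplicit false

/-!
Lemma LIN for MP_258808_al (request of helper9): a retraction pair of local families is the
identity on translation skew products over a fixed tuple with finitely many symmetry classes.
-/

namespace Pool.Agent.Helper78.HopfLin

open Pool.Agent.Helper9.Hopf

section
variable {n : ℕ} {Ω : Type} [LinearOrder Ω] {ι : Type}

/-- the translation skew product -/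
noncomputable def tr (z : Fin n → (Ω ≃o Ω)) (q : Ω → ι) (f : Fin n × ι → ℝ) :
    Fin n → ((Ω ×ₗ ℝ) ≃o (Ω ×ₗ ℝ)) :=
  fun i => skew (z i) (fun v => OrderIso.addRight (f (i, q v)))

theorem tr_apply (z : Fin n → (Ω ≃o Ω)) (q : Ω → ι) (f : Fin n × ι → ℝ) (i : Fin n) (v : Ω)
    (s : ℝ) : tr z q f i (toLex (v, s)) = toLex (z i v, s + f (i, q v)) := rfl

theorem covers_tr (z : Fin n → (Ω ≃o Ω)) (q : Ω → ι) (f : Fin n × ι → ℝ) :
    Covers (tr z q f) z := fun _ _ => rfl

/-- words act by linear translations in the fibre -/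
theorem exists_lin (z : Fin n → (Ω ≃o Ω)) (q : Ω → ι) (g : FreeGroup (Fin n)) (v : Ω) :
    ∃ L : (Fin n × ι → ℝ) →ₗ[ℝ] ℝ, ∀ (f : Fin n × ι → ℝ) (s : ℝ),
      act (tr z q f) g (toLex (v, s)) = toLex (act z g v, s + L f) := by
  induction g using freeGroup_induction_left with
  | h1 => exact ⟨0, fun f s => by simp⟩
  | hof i g ih =>
    obtain ⟨L, hL⟩ := ih
    refine ⟨L + LinearMap.proj (i, q (act z g v)), fun f s => ?_⟩
    rw [act_mul, hL, act_of_apply, tr_apply, act_mul, act_of_apply]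
    simp [add_assoc]
  | hinv i g ih =>
    obtain ⟨L, hL⟩ := ih
    refine ⟨L - LinearMap.proj (i, q ((z i).symm (act z g v))), fun f s => ?_⟩
    rw [act_mul, hL, act_inv_of, OrderIso.symm_apply_eq, act_mul, act_inv_of, tr_apply]
    simp [sub_eq_add_neg, add_assoc]

/-- linear cocycle of a word -/
noncomputable def cocyc (z : Fin n → (Ω ≃o Ω)) (q : Ω → ι) (g : FreeGroup (Fin n)) (v : Ω) :
    (Fin n × ι → ℝ) →ₗ[ℝ] ℝ := (exists_lin z q g v).choose

theorem act_tr (z : Fin n → (Ω ≃o Ω)) (q : Ω → ι) (g : FreeGroup (Fin n)) (v : Ω)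
    (f : Fin n × ι → ℝ) (s : ℝ) :
    act (tr z q f) g (toLex (v, s)) = toLex (act z g v, s + cocyc z q g v f) :=
  (exists_lin z q g v).choose_spec f s

/-- the induced piecewise linear map -/
noncomputable def lin (U : LocFam n n) (z : Fin n → (Ω ≃o Ω)) (q : Ω → ι) (rep : ι → Ω)
    (f : Fin n × ι → ℝ) : Fin n × ι → ℝ :=
  fun p => (ofLex (U.map (Ω ×ₗ ℝ) (tr z q f) p.1 (toLex (rep p.2, 0)))).2

theorem map_tr (U : LocFam n n) (z y : Fin n → (Ω ≃o Ω)) (hU : U.map Ω z = y) (q : Ω → ι)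
    (rep : ι → Ω) (hrep : ∀ k, q (rep k) = k)
    (hsym : ∀ v v', q v = q v' → ∃ t : Ω ≃o Ω, (∀ i u, t (z i u) = z i (t u)) ∧
      (∀ u, q (t u) = q u) ∧ t v = v') (f : Fin n × ι → ℝ) :
    U.map (Ω ×ₗ ℝ) (tr z q f) = tr y q (lin U z q rep f) := by
  funext i
  ext p
  obtain ⟨v, s, rfl⟩ : ∃ v s, p = toLex (v, s) := ⟨(ofLex p).1, (ofLex p).2, rfl⟩
  have hcov : ∀ p, (ofLex (U.map (Ω ×ₗ ℝ) (tr z q f) i p)).1 = y i (ofLex p).1 := fun p =>
    (covers_tr z q f).map' U hU i p
  -- translation invariance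
  have h1 : (ofLex (U.map (Ω ×ₗ ℝ) (tr z q f) i (toLex (v, s)))).2 =
      (ofLex (U.map (Ω ×ₗ ℝ) (tr z q f) i (toLex (v, 0)))).2 + s := by
    have hc : ∀ j x, skew (OrderIso.refl Ω) (fun _ => OrderIso.addRight s) (tr z q f j x) =
        tr z q f j (skew (OrderIso.refl Ω) (fun _ => OrderIso.addRight s) x) := by
      intro j x
      obtain ⟨u, r, rfl⟩ : ∃ u r, x = toLex (u, r) := ⟨(ofLex x).1, (ofLex x).2, rfl⟩
      rw [tr_apply, skew_apply, skew_apply, tr_apply]
      simp only [OrderIso.refl_apply, OrderIso.addRight_apply]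
      congr 2
      ring
    have := U.commute hc i (toLex (v, 0))
    rw [skew_apply] at this
    simp only [OrderIso.refl_apply, OrderIso.addRight_apply, zero_add] at this
    rw [← this]
    rfl
  have h2 : (ofLex (U.map (Ω ×ₗ ℝ) (tr z q f) i (toLex (v, 0)))).2 =
      (ofLex (U.map (Ω ×ₗ ℝ) (tr z q f) i (toLex (rep (q v), 0)))).2 := by
    obtain ⟨t, ht1, ht2, ht3⟩ := hsym v (rep (q v)) (hrep _).symm
    have hc : ∀ j x, skew t (fun _ => OrderIso.refl ℝ) (tr z q f j x) =
        tr z q f j (skew t (fun _ => OrderIso.refl ℝ) x) := by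
      intro j x
      obtain ⟨u, r, rfl⟩ : ∃ u r, x = toLex (u, r) := ⟨(ofLex x).1, (ofLex x).2, rfl⟩
      rw [tr_apply, skew_apply, skew_apply, tr_apply, ht1, ht2]
      simp
    have := U.commute hc i (toLex (v, 0))
    rw [skew_apply, ht3] at this
    simp only [OrderIso.refl_apply] at this
    rw [← this]
    rfl
  subst_vars
  have h3 : U.map (Ω ×ₗ ℝ) (tr z q f) i (toLex (v, s)) =
      toLex (U.map Ω z i v, (ofLex (U.map (Ω ×ₗ ℝ) (tr z q f) i (toLex (v, s)))).2) := by
    have := hcov (toLex (v, s))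
    simp only [ofLex_toLex] at this
    rw [← this]; rfl
  rw [h3, tr_apply, h1, h2, add_comm]
  rfl

theorem lin_coord (U : LocFam n n) (z : Fin n → (Ω ≃o Ω)) (q : Ω → ι) (rep : ι → Ω) :
    ∃ F : Finset (FreeGroup (Fin n)), ∀ (f : Fin n × ι → ℝ) (p : Fin n × ι), ∃ g ∈ F,
      lin U z q rep f p = cocyc z q g (rep p.2) f := by
  classical
  have h : ∀ i : Fin n, ∃ F : Finset (FreeGroup (Fin n)), ∀ (f : Fin n × ι → ℝ) (k : ι),
      ∃ g ∈ F, lin U z q rep f (i, k) = cocyc z q g (rep k) f := by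
    intro i
    obtain ⟨F, hF⟩ := (U.loc i).exists_eq
    refine ⟨F, fun f k => ?_⟩
    obtain ⟨g, hg, h1⟩ := hF (Ω ×ₗ ℝ) (tr z q f) (toLex (rep k, 0))
    refine ⟨g, hg, ?_⟩
    unfold lin
    simp only
    rw [h1, act_tr]
    simp
  choose F hF using h
  refine ⟨Finset.univ.biUnion F, ?_⟩
  rintro f ⟨i, k⟩
  obtain ⟨g, hg, h1⟩ := hF i f k
  exact ⟨g, Finset.mem_biUnion.2 ⟨i, Finset.mem_univ _, hg⟩, h1⟩

theorem lin_matrix [Fintype ι] (U : LocFam n n) (z : Fin n → (Ω ≃o Ω)) (q : Ω → ι)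
    (rep : ι → Ω) : ∃ M : Finset (Matrix (Fin n × ι) (Fin n × ι) ℝ), ∀ f, ∃ A ∈ M,
      lin U z q rep f = A.mulVec f := by
  classical
  obtain ⟨F, hF⟩ := lin_coord U z q rep
  refine ⟨(Fintype.piFinset (fun _ : Fin n × ι => F)).image (fun G => Matrix.of fun p r =>
    cocyc z q (G p) (rep p.2) (Pi.single r 1)), fun f => ?_⟩
  choose G hG1 hG2 using fun p => hF f p
  refine ⟨_, Finset.mem_image.2 ⟨G, Fintype.mem_piFinset.2 hG1, rfl⟩, ?_⟩
  funext p
  rw [hG2]
  simp only [Matrix.mulVec, dotProduct, Matrix.of_apply]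
  have : f = ∑ r, f r • (Pi.single r (1 : ℝ) : Fin n × ι → ℝ) := by
    funext x
    simp [Finset.sum_apply, Pi.single_apply]
  conv_lhs => rw [this]
  rw [map_sum]
  refine Finset.sum_congr rfl fun r _ => ?_
  rw [map_smul, smul_eq_mul, mul_comm]

theorem lin_continuous [Fintype ι] (U : LocFam n n) (z : Fin n → (Ω ≃o Ω)) (q : Ω → ι)
    (rep : ι → Ω) : Continuous (lin U z q rep) := by
  classical
  have hcc : ∀ (g : FreeGroup (Fin n)) (v : Ω), Continuous (cocyc z q g v) := fun g v =>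
    LinearMap.continuous_of_finiteDimensional _
  refine continuous_pi fun p => ?_
  obtain ⟨i, k⟩ := p
  rw [continuous_iff_continuousAt]
  intro f₀
  obtain ⟨F, hF⟩ := U.loc i
  -- the pattern near `f₀` refines the pattern at `f₀`
  have hev : ∀ᶠ f in nhds f₀, Coarse F (tr z q f) (toLex (rep k, (0 : ℝ))) (tr z q f₀)
      (toLex (rep k, (0 : ℝ))) := by
    have : ∀ g ∈ F, ∀ g' ∈ F, ∀ᶠ f in nhds f₀,
        (act (tr z q f) g (toLex (rep k, (0 : ℝ))) ≤ act (tr z q f) g' (toLex (rep k, (0 : ℝ))) →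
        act (tr z q f₀) g (toLex (rep k, (0 : ℝ))) ≤
          act (tr z q f₀) g' (toLex (rep k, (0 : ℝ)))) := by
      intro g _ g' _
      simp only [act_tr, Prod.Lex.toLex_le_toLex, zero_add]
      by_cases h1 : act z g (rep k) < act z g' (rep k)
      · exact Filter.Eventually.of_forall fun f _ => Or.inl h1
      · by_cases h2 : act z g (rep k) = act z g' (rep k)
        · by_cases h3 : cocyc z q g (rep k) f₀ ≤ cocyc z q g' (rep k) f₀
          · exact Filter.Eventually.of_forall fun f _ => Or.inr ⟨h2, h3⟩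
          · have h4 : ∀ᶠ f in nhds f₀, cocyc z q g' (rep k) f < cocyc z q g (rep k) f :=
              (hcc g' (rep k)).continuousAt.eventually_lt (hcc g (rep k)).continuousAt
                (not_le.1 h3)
            filter_upwards [h4] with f hf hle
            rcases hle with h | ⟨_, h⟩
            · exact absurd h h1
            · exact absurd h (not_le.2 hf)
        · refine Filter.Eventually.of_forall fun f hle => ?_
          rcases hle with h | ⟨h, _⟩
          · exact absurd h h1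
          · exact absurd h h2
    have h5 := (Filter.eventually_all_finset F).2 fun g hg =>
      (Filter.eventually_all_finset F).2 fun g' hg' => this g hg g' hg'
    filter_upwards [h5] with f hf
    exact hf
  have hclose : ∀ᶠ f in nhds f₀, ∃ g ∈ F, lin U z q rep f (i, k) = cocyc z q g (rep k) f ∧
      lin U z q rep f₀ (i, k) = cocyc z q g (rep k) f₀ := by
    filter_upwards [hev] with f hf
    obtain ⟨g, hg, h1, h2⟩ := hF _ _ _ _ _ _ hf
    simp only at h1 h2
    refine ⟨g, hg, ?_, ?_⟩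
    · unfold lin
      simp only
      rw [h1, act_tr]; simp
    · unfold lin
      simp only
      rw [h2, act_tr]; simp
  rw [ContinuousAt, Metric.tendsto_nhds]
  intro ε hε
  have h6 : ∀ᶠ f in nhds f₀, ∀ g ∈ F, dist (cocyc z q g (rep k) f) (cocyc z q g (rep k) f₀) < ε := by
    refine (Filter.eventually_all_finset F).2 fun g _ => ?_
    exact Metric.tendsto_nhds.1 (hcc g (rep k)).continuousAt ε hε
  filter_upwards [hclose, h6] with f h7 h8
  obtain ⟨g, hg, h9, h10⟩ := h7
  rw [h9, h10]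
  exact h8 g hg

theorem tr_injective {z : Fin n → (Ω ≃o Ω)} {q : Ω → ι} (hq : Function.Surjective q)
    {f h : Fin n × ι → ℝ} (he : tr z q f = tr z q h) : f = h := by
  funext ⟨i, k⟩
  obtain ⟨v, rfl⟩ := hq k
  have h1 := congrArg (fun u => u i (toLex (v, (0 : ℝ)))) he
  simp only [tr_apply, zero_add] at h1
  exact congrArg (fun p => (ofLex p).2) h1

end

/-- LIN -/
theorem linLemma {n : ℕ} (W V : LocFam n n)
    (hVW : ∀ (Ω : Type) [LinearOrder Ω] (z : Fin n → (Ω ≃o Ω)), V.map Ω (W.map Ω z) = z)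
    {Ω : Type} [LinearOrder Ω] (z : Fin n → (Ω ≃o Ω)) (hz : W.map Ω (V.map Ω z) = z)
    {ι : Type} [Fintype ι] (q : Ω → ι) (hq : Function.Surjective q)
    (hsym : ∀ v v', q v = q v' → ∃ t : Ω ≃o Ω, (∀ i u, t (z i u) = z i (t u)) ∧
      (∀ u, q (t u) = q u) ∧ t v = v')
    (f : Fin n → ι → ℝ) :
    W.map (Ω ×ₗ ℝ) (V.map (Ω ×ₗ ℝ)
      (fun i => skew (z i) (fun v => OrderIso.addRight (f i (q v))))) =
      (fun i => skew (z i) (fun v => OrderIso.addRight (f i (q v)))) := by
  classical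
  obtain ⟨rep, hrep⟩ := hq.hasRightInverse
  set y := V.map Ω z with hy
  have hsym' : ∀ v v', q v = q v' → ∃ t : Ω ≃o Ω, (∀ i u, t (y i u) = y i (t u)) ∧
      (∀ u, q (t u) = q u) ∧ t v = v' := by
    intro v v' h
    obtain ⟨t, h1, h2, h3⟩ := hsym v v' h
    exact ⟨t, fun i u => V.commute h1 i u, h2, h3⟩
  have hW := fun h => map_tr W y z hz q rep hrep hsym' h
  have hV := fun h => map_tr V z y hy.symm q rep hrep hsym h
  have hvw : ∀ h, lin V z q rep (lin W y q rep h) = h := by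
    intro h
    apply tr_injective hq (z := y)
    rw [← hV, ← hW, hVW]
  obtain ⟨M, hM⟩ := lin_matrix W y q rep
  obtain ⟨N, hN⟩ := lin_matrix V z q rep
  have key := Pool.Agent.Helper45.HopfFD.fd (lin W y q rep) (lin V z q rep)
    (lin_continuous W y q rep) (lin_continuous V z q rep) M N hM hN hvw
  have h1 : (fun i => skew (z i) (fun v => OrderIso.addRight (f i (q v)))) =
      tr z q (fun p => f p.1 p.2) := rfl
  rw [h1, hV, hW, key]

end Pool.Agent.Helper78.HopfLin
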